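import Pool.Agent.MP_781439_al.Mg.Positive

/-!
For a finite or countably infinite graph whose right-angled Artin group is not cyclic and is not a
direct product of two infinite groups, and for `k ≥ 1`, a sharply `k`-transitive order-preserving
action on the rationals exists exactly when `k = 1` or some finite set of vertices has no common
neighbour.  The second condition holds for every finite graph (take all vertices).
-/

open Pool.Agent.MP_781439_al in
theorem Pool.Agent.Results.MP_781439_al.Classification.result
    (V : Type) [Countable V] (Γ : SimpleGraph V)
    (hc : ¬ IsCyclic (RAAG Γ)) (hp : ¬ IsProductOfInfinite (RAAG Γ)) (k : ℕ) (hk : 1 ≤ k) :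
    HasSharplyTransitiveAction (RAAG Γ) k ↔
      (k = 1 ∨ ∃ F : Finset V, ∀ u : V, ∃ w ∈ F, ¬ Γ.Adj u w) :=
  classification Γ hc hp k hk
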