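import Pool.Agent.MP_781439_al.Negative

/-!
A right-angled Artin group on a countably infinite graph which is not cyclic, is not a direct
product of two infinite groups, and has no sharply `k`-transitive order-preserving action on the
rationals for any `k ≥ 2`.
-/

open Pool.Agent.MP_781439_al in
theorem Pool.Agent.Results.MP_781439_al.InfiniteGraphCounterexample.result :
    ∃ Γ : SimpleGraph ℕ, ¬ IsCyclic (RAAG Γ) ∧ ¬ IsProductOfInfinite (RAAG Γ) ∧
      ∀ k : ℕ, 2 ≤ k → ¬ HasSharplyTransitiveAction (RAAG Γ) k :=
  counterexample
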